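import Pool.Agent.H74.LoopSn
import Pool.Agent.H74.DegZ

set_option autoImplicit false

namespace Pool.Agent.Results.MP_543b9c_al.NoBound

open Pool.Agent.H74.Loops Pool.Agent.H74.Cubes

/-- A normal subloop: a subloop invariant under the stabiliser of `1` in `Mlt Q`. -/
def IsNormalSubloop {Q : Type} [Loop Q] (N : Set Q) : Prop :=
  (1 : Q) ∈ N ∧ (∀ a ∈ N, ∀ b ∈ N, a * b ∈ N ∧ Loop.ldiv a b ∈ N ∧ Loop.rdiv a b ∈ N) ∧
    ∀ σ ∈ Mlt Q, σ 1 = 1 → ∀ x ∈ N, σ x ∈ N

/-- `u` and `v` have the same image in `Q / N`. -/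
def Congr {Q : Type} [Loop Q] (N : Set Q) (u v : Q) : Prop := ∃ m ∈ N, u = m * v

/-- The image of `a` in `Q / N` is central. -/
def CentralMod {Q : Type} [Loop Q] (N : Set Q) (a : Q) : Prop :=
  ∀ x y : Q, Congr N (a * x) (x * a) ∧ Congr N (a * (x * y)) ((a * x) * y) ∧
    Congr N (x * (a * y)) ((x * a) * y) ∧ Congr N (x * (y * a)) ((x * y) * a)

/-- There is a central series of normal subloops of length `k`. -/
def HasCentralSeries (Q : Type) [Loop Q] (k : ℕ) : Prop :=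
  ∃ N : ℕ → Set Q, N 0 = {1} ∧ N k = Set.univ ∧ (∀ i ≤ k, IsNormalSubloop (N i)) ∧
    ∀ i < k, N i ⊆ N (i + 1) ∧ ∀ a ∈ N (i + 1), CentralMod (N i) a

def θ (d : ℕ) (x y : ℤ) : ℤ := x ^ (d + 1) * (x - 1) * y

@[ext] structure L (d : ℕ) where
  a : ℤ
  x : ℤ

variable {d : ℕ}

instance : Loop (L d) where
  mul p q := ⟨p.a + q.a + θ d p.x q.x, p.x + q.x⟩
  one := ⟨0, 0⟩
  ldiv p q := ⟨q.a - p.a - θ d p.x (q.x - p.x), q.x - p.x⟩
  rdiv q p := ⟨q.a - p.a - θ d (q.x - p.x) p.x, q.x - p.x⟩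
  one_mul p := L.ext (by show 0 + p.a + θ d 0 p.x = p.a; simp [θ]) (zero_add _)
  mul_one p := L.ext (by show p.a + 0 + θ d p.x 0 = p.a; simp [θ]) (add_zero _)
  mul_ldiv p q := L.ext (by
    show p.a + (q.a - p.a - θ d p.x (q.x - p.x)) + θ d p.x (q.x - p.x) = q.a; ring)
    (by show p.x + (q.x - p.x) = q.x; ring)
  ldiv_mul p q := L.ext (by
    show p.a + q.a + θ d p.x q.x - p.a - θ d p.x (p.x + q.x - p.x) = q.a
    rw [add_sub_cancel_left]; ring) (by show p.x + q.x - p.x = q.x; ring)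
  rdiv_mul p q := L.ext (by
    show (q.a - p.a - θ d (q.x - p.x) p.x) + p.a + θ d (q.x - p.x) p.x = q.a; ring)
    (by show (q.x - p.x) + p.x = q.x; ring)
  mul_rdiv p q := L.ext (by
    show q.a + p.a + θ d q.x p.x - p.a - θ d (q.x + p.x - p.x) p.x = q.a
    rw [add_sub_cancel_right]; ring) (by show q.x + p.x - p.x = q.x; ring)

lemma mul_a (p q : L d) : (p * q).a = p.a + q.a + θ d p.x q.x := rfl
lemma mul_x (p q : L d) : (p * q).x = p.x + q.x := rfl
lemma one_a : (1 : L d).a = 0 := rfl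
lemma one_x : (1 : L d).x = 0 := rfl
lemma ldiv_x (p q : L d) : (Loop.ldiv p q).x = q.x - p.x := rfl
lemma rdiv_x (p q : L d) : (Loop.rdiv q p).x = q.x - p.x := rfl
lemma rdiv_a (p q : L d) : (Loop.rdiv q p).a = q.a - p.a - θ d (q.x - p.x) p.x := rfl
lemma θ0 (y : ℤ) : θ d 0 y = 0 := by simp [θ]
lemma θ0' (y : ℤ) : θ d y 0 = 0 := by simp [θ]

lemma degθ {n : ℕ} {f g : V n → ℤ} (hf : Deg 1 f) (hg : Deg 1 g) :
    Deg (d + 3) (fun s => θ d (f s) (g s)) :=
  ((hf.pow (d + 1)).mul (hf.sub (Deg.const 1 n 1))).mul hg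

def cubes (d : ℕ) : CubeSys (L d) (d + 3) where
  C n := {z | Deg (d + 3) (fun s => (z s).a) ∧ Deg 1 (fun s => (z s).x)}
  const n p := ⟨Deg.const _ n p.a, Deg.const _ n p.x⟩
  dir n i p q := by
    constructor
    · convert Deg.dir (w := d + 3) (by omega) i p.a q.a using 2 with s
      dsimp only
      split_ifs <;> rfl
    · convert Deg.dir (w := 1) le_rfl i p.x q.x using 2 with s
      dsimp only
      split_ifs <;> rfl
  mul n x hx y hy := ⟨(hx.1.add hy.1).add (degθ hx.2 hy.2), hx.2.add hy.2⟩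
  ldiv n x hx y hy r hr := by
    have h2 : Deg 1 (fun s => (r s).x) := by
      convert hy.2.sub hx.2 using 2 with s
      rw [← hr s, mul_x]; ring
    refine ⟨?_, h2⟩
    convert (hy.1.sub hx.1).sub (degθ (d := d) hx.2 h2) using 2 with s
    rw [← hr s, mul_a]; ring
  rdiv n x hx y hy r hr := by
    have h2 : Deg 1 (fun s => (r s).x) := by
      convert hy.2.sub hx.2 using 2 with s
      rw [← hr s, mul_x]; ring
    refine ⟨?_, h2⟩
    convert (hy.1.sub hx.1).sub (degθ (d := d) h2 hx.2) using 2 with s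
    rw [← hr s, mul_a]; ring
  uniq n hn x hx y hy h := L.ext (Deg.uniq hn hx.1 hy.1 (fun s hs => by rw [h s hs]))
    (Deg.uniq (by omega) hx.2 hy.2 (fun s hs => by rw [h s hs]))

lemma mlt_x (σ : Equiv.Perm (L d)) (h : σ ∈ Mlt (L d)) : ∃ t, ∀ p, (σ p).x = p.x + t := by
  refine Subgroup.closure_induction (p := fun σ _ => ∃ t, ∀ p, (σ p).x = p.x + t) ?_ ?_ ?_ ?_ h
  · rintro σ ⟨a, h | h⟩
    · exact ⟨a.x, fun p => by rw [h, mul_x, add_comm]⟩
    · exact ⟨a.x, fun p => by rw [h, mul_x]⟩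
  · exact ⟨0, fun p => by simp⟩
  · rintro σ τ _ _ ⟨s, hs⟩ ⟨t, ht⟩
    exact ⟨t + s, fun p => by rw [Equiv.Perm.mul_apply, hs, ht, add_assoc]⟩
  · rintro σ _ ⟨s, hs⟩
    refine ⟨-s, fun p => ?_⟩
    have := hs (σ⁻¹ p)
    simp only [Equiv.Perm.coe_inv, Equiv.apply_symm_apply] at this ⊢
    omega

lemma series2 : HasCentralSeries (L d) 2 := by
  let N : ℕ → Set (L d) := fun i => if i = 0 then {1} else if i = 1 then {p | p.x = 0} else Set.univ
  have c1 : ∀ u v : L d, u.x = v.x → Congr {p : L d | p.x = 0} u v := fun u v h =>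
    ⟨⟨u.a - v.a, 0⟩, rfl, L.ext (by simp [mul_a, θ0]) (by simp [mul_x, h])⟩
  have c0 : ∀ u v : L d, u = v → Congr {1} u v := fun u v h => ⟨1, rfl, by rw [h, Loop.one_mul]⟩
  refine ⟨N, rfl, rfl, fun i hi => ?_, fun i hi => ?_⟩
  · interval_cases i
    · refine ⟨rfl, ?_, ?_⟩
      · rintro a rfl b rfl
        refine ⟨Loop.one_mul _, ?_, ?_⟩
        · have := Loop.ldiv_mul (1 : L d) 1
          rwa [Loop.one_mul] at this
        · have := Loop.mul_rdiv (1 : L d) 1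
          rwa [Loop.one_mul] at this
      · rintro σ _ h x rfl; exact h
    · refine ⟨rfl, fun a ha b hb => ?_, fun σ hσ h x hx => ?_⟩
      · have ha' : a.x = 0 := ha
        have hb' : b.x = 0 := hb
        exact ⟨by show (a * b).x = 0; rw [mul_x, ha', hb']; rfl,
          by show (Loop.ldiv a b).x = 0; rw [ldiv_x, ha', hb']; rfl,
          by show (Loop.rdiv a b).x = 0; rw [rdiv_x, ha', hb']; rfl⟩
      · obtain ⟨t, ht⟩ := mlt_x σ hσ
        have h1 := ht 1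
        rw [h] at h1
        have hx' : x.x = 0 := hx
        show (σ x).x = 0
        rw [ht]; omega
    · exact ⟨trivial, fun _ _ _ _ => ⟨trivial, trivial, trivial⟩, fun _ _ _ _ _ => trivial⟩
  · interval_cases i
    · refine ⟨?_, fun a ha x y => ?_⟩
      · rintro a rfl; rfl
      · have ha' : a.x = 0 := ha
        refine ⟨c0 _ _ ?_, c0 _ _ ?_, c0 _ _ ?_, c0 _ _ ?_⟩ <;> apply L.ext <;>
          simp only [mul_a, mul_x, ha', θ0, θ0', zero_add, add_zero] <;> ring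
    · refine ⟨fun _ _ => trivial, fun a _ x y => ?_⟩
      refine ⟨c1 _ _ ?_, c1 _ _ ?_, c1 _ _ ?_, c1 _ _ ?_⟩ <;> simp only [mul_x] <;> ring

lemma not_series (j : ℕ) (hj : j < 2) : ¬ HasCentralSeries (L d) j := by
  rintro ⟨N, h0, h1, -, h3⟩
  interval_cases j
  · have : (⟨1, 0⟩ : L d) ∈ N 0 := by rw [h1]; trivial
    rw [h0] at this
    have := congrArg L.a this
    simp [one_a] at this
  · obtain ⟨m, hm, e⟩ := ((h3 0 one_pos).2 ⟨0, 2⟩ (by rw [h1]; trivial) ⟨0, 1⟩ 1).1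
    rw [h0] at hm
    rw [hm, Loop.one_mul] at e
    have := congrArg L.a e
    simp [mul_a, θ] at this

/-- Iterated differences. -/
def D : (m : ℕ) → (ℤ → ℤ) → (Fin m → ℤ) → ℤ → ℤ
  | 0, f, _, z => f z
  | m + 1, f, x, z => D m f (Fin.tail x) (x 0 + z) - D m f (Fin.tail x) z

lemma D_zero (m : ℕ) (f : ℤ → ℤ) : ∀ (x : Fin m → ℤ) (z : ℤ), (∃ i, x i = 0) → D m f x z = 0 := by
  induction m with
  | zero => rintro x z ⟨i, -⟩; exact i.elim0
  | succ m ih =>
    rintro x z ⟨i, hi⟩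
    rw [D]
    revert hi
    refine Fin.cases (fun hi => ?_) (fun j hi => ?_) i
    · simp [hi]
    · rw [ih _ _ ⟨j, hi⟩, ih _ _ ⟨j, hi⟩, sub_zero]

lemma D_one (m : ℕ) (f : ℤ → ℤ) : ∀ z, D m f (fun _ => 1) z = (fwdDiff 1)^[m] f z := by
  induction m with
  | zero => intro z; rfl
  | succ m ih =>
    intro z
    rw [D, Function.iterate_succ_apply', fwdDiff, ← ih, ← ih, add_comm z]
    rfl

def f (d : ℕ) (z : ℤ) : ℤ := z ^ (d + 2) - z ^ (d + 1)

lemma D_poly {n : ℕ} (m : ℕ) : ∀ (t : Fin m → (Fin n → L d) → L d) (r : (Fin n → L d) → L d),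
    (∀ i, H74.Loops.IsPoly (t i)) → H74.Loops.IsPoly r →
      H74.Loops.IsPoly (fun v => (⟨D m (f d) (fun i => (t i v).x) (r v).x, 0⟩ : L d)) := by
  induction m with
  | zero =>
    intro t r _ hr
    have := H74.Loops.IsPoly.rdiv (hr.mul (H74.Loops.IsPoly.const ⟨0, 1⟩)) ((H74.Loops.IsPoly.const ⟨0, 1⟩).mul hr)
    convert this using 2 with v
    apply L.ext
    · simp only [rdiv_a, mul_a, mul_x, D, f, add_comm (r v).x, sub_self, θ]
      ring
    · simp only [rdiv_x, mul_x]; ring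
  | succ m ih =>
    intro t r ht hr
    have := H74.Loops.IsPoly.rdiv (ih (fun i => t i.succ) _ (fun i => ht _) ((ht 0).mul hr))
      (ih (fun i => t i.succ) _ (fun i => ht _) hr)
    convert this using 2 with v
    apply L.ext
    · simp only [rdiv_a, mul_x, D, θ0', sub_zero]
      rfl
    · simp only [rdiv_x]; ring

lemma not_sn : ¬ Supernilp (L d) d := by
  intro h
  have hp := D_poly (d := d) (n := d + 2) (d + 2) (fun i v => v i) (fun _ => 1)
    (fun i => H74.Loops.IsPoly.proj i) (H74.Loops.IsPoly.const 1)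
  have := h (d + 2) (by omega) _ hp (fun u ⟨i, hi⟩ => L.ext (D_zero _ _ _ _ ⟨i, by rw [hi]; rfl⟩) rfl)
    (fun _ => ⟨0, 1⟩) (fun _ => 1)
  have h2 := congrArg L.a this
  simp only at h2
  rw [D_one, D_zero _ _ _ _ ⟨0, rfl⟩] at h2
  have e : f d = (fun z : ℤ => z ^ (d + 2)) + (-1 : ℤ) • (fun z : ℤ => z ^ (d + 1)) := by
    funext z; simp [f]; ring
  rw [e, fwdDiff_iter_add, fwdDiff_iter_const_smul, fwdDiff_iter_eq_factorial,
    fwdDiff_iter_pow_eq_zero_of_lt (by omega)] at h2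
  simp at h2
  exact Nat.factorial_ne_zero _ h2

/-- Supernilpotent loops of central nilpotence class exactly 2 have unbounded supernilpotence
class. -/
theorem result (k : ℕ) :
    ∃ (Q : Type) (_ : Loop Q), IsLeast {j | HasCentralSeries Q j} 2 ∧
      (∃ j, Supernilp Q j) ∧ ¬ Supernilp Q k :=
  ⟨L k, inferInstance, ⟨series2, fun j hj => by
    by_contra h
    exact not_series j (by omega) hj⟩, ⟨_, supernilp_of_cubeSys (cubes k)⟩, not_sn⟩

end Pool.Agent.Results.MP_543b9c_al.NoBound
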